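import Pool.Agent.Helper289.LamMin
import Pool.Agent.Helper289.Mean
import Pool.Agent.Helper289.Coding

/-! A minimal holomorphic lamination by Riemann surfaces in a compact complex manifold which admits
uncountably many pairwise non-proportional extremal directed positive `dd^c`-closed currents, none
of which is closed. -/

open Set Topology MeasureTheory
open scoped Manifold ContDiff

noncomputable section

namespace Pool.Agent.Results.MP_ec4b97_an.MinimalLamination

open Pool.Agent.Helper289.LamDefs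

section construction

open Pool.Agent.Helper289.Base Pool.Agent.Helper289.Quot Pool.Agent.Helper289.Forms
open Pool.Agent.Helper289.LamX Pool.Agent.Helper289.Per Pool.Agent.Helper289.Mean
open Pool.Agent.Helper289.Coding Pool.Agent.Helper289.Torus

/-- the currents -/
def Tc (c : ℝ) : Current E4 X := cur (Lr (rho c))

lemma Tc_mem_cone (c : ℝ) : Tc c ∈ (lamK minSet_KK).cone :=
  ⟨isPositive_cur (posL_Lr _), isDdcClosed_cur (harmL_Lr _ (ergodic_rho c).toMeasurePreserving),
    isDirected_cur minSet_KK (Lr_support _ minSet_KK (rho_compl c))⟩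

lemma fn_Tc (c : ℝ) : fn (Tc c) = Lr (rho c) := fn_cur _

lemma Tc_ne_zero (c : ℝ) : Tc c ≠ 0 := by
  intro h
  have h1 := fn_Tc c
  rw [h] at h1
  have h2 := Lr_one (rho c)
  rw [← h1] at h2
  exact log_al_pos.ne h2

lemma eq_of_fn {T T' : Current E4 X} (hT : (lamK minSet_KK).IsDirected T)
    (hT' : (lamK minSet_KK).IsDirected T') {c : ℝ} (h : fn T = c • fn T') : T = c • T' := by
  apply LinearMap.ext
  intro φ
  have h1 := directed_fn minSet_KK hT φ
  have h2 := directed_fn minSet_KK hT' φ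
  have h3 : (c • T') φ = c * T' φ := rfl
  rw [h3, h1, h2, h]
  rfl

lemma Tc_extremal (c : ℝ) : (lamK minSet_KK).IsExtremal (Tc c) := by
  refine ⟨Tc_mem_cone c, Tc_ne_zero c, ?_⟩
  rintro T₁ ⟨hp1, hd1, hdir1⟩ T₂ ⟨hp2, hd2, hdir2⟩ hsum
  have hH1 : HarmL (fn T₁) := harmL_fn hd1 (directed_fn minSet_KK hdir1)
  have hs : fn T₁ + fn T₂ = Lr (rho c) := by
    rw [← fn_Tc, ← hsum]
    rfl
  obtain ⟨a, ha⟩ := extremal_L (ergodic_rho c) (posL_Lr _)
    (harmL_Lr _ (ergodic_rho c).toMeasurePreserving) (posL_fn hp1) hH1 (posL_fn hp2) hs log_al_pos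
    (Lr_P_chi _ (ergodic_rho c).toMeasurePreserving)
  refine ⟨a, eq_of_fn hdir1 (Tc_mem_cone c).2.2 ?_⟩
  rw [fn_Tc, ha]

lemma Tc_not_closed (c : ℝ) : ¬ IsClosedCurrent (Tc c) :=
  not_closed (Tc_mem_cone c).1 (directed_fn minSet_KK (Tc_mem_cone c).2.2) (Tc_ne_zero c)

lemma Tc_not_prop {c c' : ℝ} (hc : c ∈ Icc (0 : ℝ) 1) (hc' : c' ∈ Icc (0 : ℝ) 1) {t : ℝ}
    (h : Tc c = t • Tc c') : c = c' := by
  have h1 : Lr (rho c) = t • Lr (rho c') := by
    rw [← fn_Tc, h, ← fn_Tc]
    rfl
  have h2 : Lr (rho c) 1 = t * Lr (rho c') 1 := LinearMap.congr_fun h1 1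
  rw [Lr_one, Lr_one] at h2
  have h3 : t = 1 := by
    have := log_al_pos.ne'
    field_simp at h2
    exact h2.symm
  rw [h3, one_smul] at h1
  have h4 := Lr_P_chi (rho c) (ergodic_rho c).toMeasurePreserving DD
  have h5 := Lr_P_chi (rho c') (ergodic_rho c').toMeasurePreserving DD
  rw [h1, h5] at h4
  by_contra hne
  exact integral_DD_ne hc.1 hc.2 hc'.1 hc'.2 hne (mul_left_cancel₀ log_al_pos.ne' h4).symm

end construction

lemma finrank_E4 : Module.finrank ℂ Pool.Agent.Helper289.Base.E4 = 4 := by simp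

/-- There are a compact connected complex manifold `X` of dimension four, a minimal holomorphic
lamination by Riemann surfaces in `X`, and an uncountable set `S` of pairwise non-proportional
extremal positive `dd^c`-closed currents directed by the lamination, none of which is closed. -/
theorem result : ∃ (E : Type) (_ : NormedAddCommGroup E) (_ : NormedSpace ℂ E) (X : Type)
    (_ : TopologicalSpace X) (_ : ChartedSpace E X),
    Module.finrank ℂ E = 4 ∧ IsManifold 𝓘(ℂ, E) ω X ∧ T2Space X ∧ CompactSpace X ∧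
    ConnectedSpace X ∧
    ∃ 𝓛 : Lamination E X, 𝓛.IsMinimal ∧ ∃ S : Set (Current E X), ¬ S.Countable ∧
      (∀ T ∈ S, 𝓛.IsExtremal T ∧ ¬ IsClosedCurrent T) ∧
      ∀ T ∈ S, ∀ T' ∈ S, T ≠ T' → ¬ IsMultiple T T' := by
  refine ⟨Pool.Agent.Helper289.Base.E4, inferInstance, inferInstance,
    Pool.Agent.Helper289.Quot.X, inferInstance, inferInstance, finrank_E4, inferInstance,
    inferInstance, inferInstance, inferInstance, Pool.Agent.Helper289.LamX.lamK
      Pool.Agent.Helper289.Coding.minSet_KK,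
    Pool.Agent.Helper289.LamX.isMinimal_lamK Pool.Agent.Helper289.Coding.minSet_KK,
    Tc '' Icc (0 : ℝ) 1, ?_, ?_, ?_⟩
  · intro hcount
    have hinj : InjOn Tc (Icc (0 : ℝ) 1) := by
      intro c hc c' hc' h
      exact Tc_not_prop hc hc' (t := 1) (by rw [one_smul]; exact h)
    have h1 : (Icc (0 : ℝ) 1).Countable := countable_of_injective_of_countable_image hinj hcount
    have h2 : ¬ (Icc (0 : ℝ) 1).Countable := by
      rw [← Cardinal.le_aleph0_iff_set_countable, Cardinal.mk_Icc_real (by norm_num), not_le]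
      exact Cardinal.aleph0_lt_continuum
    exact h2 h1
  · rintro _ ⟨c, _, rfl⟩
    exact ⟨Tc_extremal c, Tc_not_closed c⟩
  · rintro _ ⟨c, hc, rfl⟩ _ ⟨c', hc', rfl⟩ hne ⟨t, heq⟩
    exact hne (congrArg Tc (Tc_not_prop hc hc' heq))

end Pool.Agent.Results.MP_ec4b97_an.MinimalLamination
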